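import Pool.Agent.Results.MP_f97382_co.SlopeLower

set_option autoImplicit false
set_option linter.unusedSectionVars false

/-!
# MP_f97382_co: the slopes of `M_k(D)` and `M'_k(D)` are at least `(2 - o(1)) k`

Hubs and connectors as in `SlopeLower`, over products of affine planes of prime orders
`p_1, ..., p_r`: `n = p_1 ... p_r` and `N = (p_1 + 1) ... (p_r + 1)` classes, where `N ≤ 2 k - 1`
and `n ≥ (2 - ε) k`; such numbers are found among the `n ≡ 1` modulo a primorial.
-/

namespace Pool.Agent.Results.MP_f97382_co.SlopeAsymptotic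

open Finset Pool.Agent.Results.MP_f97382_co.SlopeLower

/-- `n ^ 2` blocks with `N` systems of coordinates such that any two blocks have, in one of the
systems, the same first coordinate -/
def Plane (n N : ℕ) : Prop :=
  ∃ (Z B Y : Type) (_ : Fintype Z) (_ : Fintype B) (_ : Fintype Y) (e : Z → B ≃ Y × Y),
    Fintype.card Z = N ∧ Fintype.card Y = n ∧ ∀ a b : B, ∃ z, (e z a).1 = (e z b).1

theorem Plane.one : Plane 1 1 :=
  ⟨Unit, Unit × Unit, Unit, inferInstance, inferInstance, inferInstance, fun _ => Equiv.refl _,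
    rfl, rfl, fun _ _ => ⟨(), rfl⟩⟩

theorem Plane.mul {n N m M : ℕ} (h : Plane n N) (h' : Plane m M) : Plane (n * m) (N * M) := by
  obtain ⟨Z, B, Y, i1, i2, i3, e, h1, h2, h3⟩ := h
  obtain ⟨Z', B', Y', j1, j2, j3, e', g1, g2, g3⟩ := h'
  refine ⟨Z × Z', B × B', Y × Y', inferInstance, inferInstance, inferInstance,
    fun z => (Equiv.prodCongr (e z.1) (e' z.2)).trans (Equiv.prodProdProdComm _ _ _ _), ?_, ?_, ?_⟩
  · rw [Fintype.card_prod, h1, g1]
  · rw [Fintype.card_prod, h2, g2]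
  · rintro ⟨a, a'⟩ ⟨b, b'⟩
    obtain ⟨z, hz⟩ := h3 a b
    obtain ⟨z', hz'⟩ := g3 a' b'
    exact ⟨(z, z'), Prod.ext hz hz'⟩

theorem Plane.prime {p : ℕ} (hp : p.Prime) : Plane p (p + 1) := by
  have : Fact p.Prime := ⟨hp⟩
  refine ⟨Option (ZMod p), ZMod p × ZMod p, ZMod p, inferInstance, inferInstance, inferInstance,
    fun z => ⟨fun A => (val z A, par z A), fun yp => mk z yp.1 yp.2, fun A => mk_val_par z A,
      fun yp => Prod.ext (val_mk z _ _) (par_mk z _ _)⟩, ?_, ?_, ?_⟩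
  · rw [Fintype.card_option, ZMod.card]
  · rw [ZMod.card]
  · intro A B
    exact exists_val A B

theorem Plane.list (l : List ℕ) (h : ∀ p ∈ l, p.Prime) :
    Plane l.prod (l.map (· + 1)).prod := by
  induction l with
  | nil => exact Plane.one
  | cons p l ih =>
    rw [List.map_cons, List.prod_cons, List.prod_cons]
    exact (Plane.prime (h p (by simp))).mul (ih fun q hq => h q (by simp [hq]))

section Graph

variable {Z B Y P L : Type} {t : ℕ}

def R (e : Z → B ≃ Y × Y) (X : Finset Z) (inc : P → L → Prop) (f : Y × Fin t → P)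
    (a : B × Fin t) (b : Z × Y × Option L) : Prop :=
  (e b.1 a.1).1 = b.2.1 ∧ ((b.1 ∈ X ∧ b.2.2 = none) ∨
    (b.1 ∉ X ∧ ∃ l, b.2.2 = some l ∧ inc (f ((e b.1 a.1).2, a.2)) l))

def Gr (e : Z → B ≃ Y × Y) (X : Finset Z) (inc : P → L → Prop) (f : Y × Fin t → P) :
    SimpleGraph ((B × Fin t) ⊕ (Z × Y × Option L)) where
  Adj u v := match u, v with
    | Sum.inl a, Sum.inr b => R e X inc f a b
    | Sum.inr b, Sum.inl a => R e X inc f a b
    | _, _ => False
  symm := ⟨by
    rintro (a | b) (a' | b') h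
    · exact h
    · exact h
    · exact h
    · exact h⟩
  loopless := ⟨by
    rintro (a | b) h
    · exact h
    · exact h⟩

variable [Fintype Z] [Fintype B] [Fintype Y] [Fintype P] [Fintype L]

lemma nbr_inr (e : Z → B ≃ Y × Y) (X : Finset Z) (inc : P → L → Prop) (f : Y × Fin t → P)
    (b : Z × Y × Option L) :
    (Gr e X inc f).neighborSet (Sum.inr b) = Sum.inl '' {a | R e X inc f a b} := by
  ext u
  rcases u with a | b'
  · simp [SimpleGraph.mem_neighborSet, Gr]
  · simp [SimpleGraph.mem_neighborSet, Gr]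

lemma nbr_inl (e : Z → B ≃ Y × Y) (X : Finset Z) (inc : P → L → Prop) (f : Y × Fin t → P)
    (a : B × Fin t) :
    (Gr e X inc f).neighborSet (Sum.inl a) = Sum.inr '' {b | R e X inc f a b} := by
  ext u
  rcases u with a' | b
  · simp [SimpleGraph.mem_neighborSet, Gr]
  · simp [SimpleGraph.mem_neighborSet, Gr]

lemma inj_class (e : Z → B ≃ Y × Y) (x : Z) (y : Y) :
    Set.InjOn (fun a : B × Fin t => ((e x a.1).2, a.2)) {a | (e x a.1).1 = y} := by
  rintro ⟨A, i⟩ hA ⟨A', j⟩ hB h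
  have hA' : (e x A).1 = y := hA
  have hB' : (e x A').1 = y := hB
  simp only [Prod.mk.injEq] at h
  have : A = A' := by
    apply (e x).injective
    exact Prod.ext (hA'.trans hB'.symm) h.1
  rw [this, h.2]

lemma deg_hub_le (e : Z → B ≃ Y × Y) (X : Finset Z) (inc : P → L → Prop) (f : Y × Fin t → P)
    (b : Z × Y × Option L) :
    {a | R e X inc f a b}.ncard ≤ Fintype.card Y * t := by
  have h1 : {a | R e X inc f a b} ⊆ {a | (e b.1 a.1).1 = b.2.1} := fun a h => h.1
  have h2 : ({a : B × Fin t | (e b.1 a.1).1 = b.2.1}).ncard ≤ Fintype.card Y * t := by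
    rw [← Set.ncard_image_of_injOn (inj_class e b.1 b.2.1)]
    refine (Set.ncard_le_ncard (Set.subset_univ _) (Set.toFinite _)).trans ?_
    rw [Set.ncard_univ, Nat.card_eq_fintype_card]
    simp
  exact (Set.ncard_le_ncard h1 (Set.toFinite _)).trans h2

lemma deg_hub (e : Z → B ≃ Y × Y) (X : Finset Z) (inc : P → L → Prop) (f : Y × Fin t → P)
    (x : Z) (hx : x ∈ X) (y : Y) :
    Fintype.card Y * t ≤ {a | R e X inc f a (x, y, none)}.ncard := by
  have h1 : (fun pi : Y × Fin t => ((e x).symm (y, pi.1), pi.2)) '' Set.univ ⊆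
      {a | R e X inc f a (x, y, none)} := by
    rintro _ ⟨⟨p, i⟩, -, rfl⟩
    exact ⟨by simp, Or.inl ⟨hx, rfl⟩⟩
  refine le_trans ?_ (Set.ncard_le_ncard h1 (Set.toFinite _))
  rw [Set.ncard_image_of_injective, Set.ncard_univ, Nat.card_eq_fintype_card]
  · simp
  · rintro ⟨p, i⟩ ⟨p', i'⟩ h
    simp only [Prod.mk.injEq, EmbeddingLike.apply_eq_iff_eq, true_and] at h
    rw [h.1, h.2]

lemma deg_conn (e : Z → B ≃ Y × Y) (X : Finset Z) (inc : P → L → Prop) (f : Y × Fin t → P)
    (hf : Function.Injective f) (m : ℕ) (hm : ∀ l, {a | inc a l}.ncard ≤ m)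
    (x : Z) (y : Y) (l : L) :
    {a | R e X inc f a (x, y, some l)}.ncard ≤ m := by
  have hinj : Set.InjOn (fun a : B × Fin t => f ((e x a.1).2, a.2))
      {a | R e X inc f a (x, y, some l)} := by
    intro a ha b hb h
    exact inj_class e x y ha.1 hb.1 (hf h)
  rw [← Set.ncard_image_of_injOn hinj]
  refine le_trans (Set.ncard_le_ncard ?_ (Set.toFinite _)) (hm l)
  rintro _ ⟨a, ha, rfl⟩
  rcases ha.2 with ⟨_, h⟩ | ⟨_, l', h, h'⟩
  · simp at h
  · simp only [Option.some.injEq] at h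
    rw [h]; exact h'

lemma deg_clique (e : Z → B ≃ Y × Y) (X : Finset Z) (inc : P → L → Prop) (f : Y × Fin t → P)
    (r : ℕ) (hr : ∀ a, {l | inc a l}.ncard ≤ r) (a : B × Fin t) :
    {b | R e X inc f a b}.ncard ≤ X.card + (Fintype.card Z - X.card) * r := by
  classical
  have h1 : {b | R e X inc f a b} ⊆
      ((X.image (fun x => ((x, (e x a.1).1, none) : Z × Y × Option L)) ∪
      (univ \ X).biUnion (fun x => (univ.filter (fun l => inc (f ((e x a.1).2, a.2)) l)).image
        (fun l => ((x, (e x a.1).1, some l) : Z × Y × Option L))) :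
        Finset (Z × Y × Option L)) : Set (Z × Y × Option L)) := by
    rintro ⟨x, y, o⟩ ⟨h1, ⟨h2, h3⟩ | ⟨h2, l, h3, h4⟩⟩
    · simp only at h1 h2 h3
      subst h3
      simp only [coe_union, coe_image, Set.mem_union, Set.mem_image, mem_coe]
      left
      exact ⟨x, h2, by rw [h1]⟩
    · simp only at h1 h2 h3 h4
      subst h3
      rw [coe_union]
      right
      simp only [mem_coe, mem_biUnion, mem_image, mem_filter, mem_sdiff, mem_univ, true_and]
      exact ⟨x, h2, l, h4, by rw [h1]⟩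
  refine (Set.ncard_le_ncard h1 (Set.toFinite _)).trans ?_
  rw [Set.ncard_coe_finset]
  refine (card_union_le _ _).trans (Nat.add_le_add card_image_le ?_)
  refine (card_biUnion_le_card_mul _ _ r ?_).trans ?_
  · intro x _
    refine card_image_le.trans ?_
    have := hr (f ((e x a.1).2, a.2))
    rwa [Set.ncard_eq_toFinset_card', Set.toFinset_setOf] at this
  · rw [card_sdiff_of_subset (subset_univ _), card_univ]

lemma degenerate_Gr (e : Z → B ≃ Y × Y) (X : Finset Z) (inc : P → L → Prop)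
    (f : Y × Fin t → P) (hf : Function.Injective f) (m : ℕ)
    (hm : ∀ l, {a | inc a l}.ncard ≤ m) (hmX : m ≤ X.card) :
    Degenerate X.card (Gr e X inc f) := by
  classical
  intro S hS hne
  by_cases h1 : ∃ x y l, Sum.inr (x, y, some l) ∈ S
  · obtain ⟨x, y, l, h⟩ := h1
    refine ⟨_, h, ?_⟩
    refine (Set.ncard_le_ncard Set.inter_subset_right (Set.toFinite _)).trans ?_
    rw [nbr_inr]
    exact (Set.ncard_image_le (Set.toFinite _)).trans ((deg_conn e X inc f hf m hm x y l).trans hmX)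
  · by_cases h2 : ∃ a, Sum.inl a ∈ S
    · obtain ⟨a, ha⟩ := h2
      refine ⟨_, ha, ?_⟩
      have h3 : S ∩ (Gr e X inc f).neighborSet (Sum.inl a) ⊆
          ((X.image (fun x => (Sum.inr (x, (e x a.1).1, none) :
            (B × Fin t) ⊕ (Z × Y × Option L))) :
            Finset ((B × Fin t) ⊕ (Z × Y × Option L))) : Set _) := by
        rw [nbr_inl]
        rintro _ ⟨hu, ⟨x, y, o⟩, hb, rfl⟩
        rcases hb with ⟨h4, ⟨h5, h6⟩ | ⟨h5, l, h6, h7⟩⟩
        · simp only at h4 h5 h6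
          subst h6
          simp only [coe_image, Set.mem_image, mem_coe]
          exact ⟨x, h5, by rw [h4]⟩
        · simp only at h6
          subst h6
          exact absurd ⟨x, y, l, hu⟩ h1
      refine (Set.ncard_le_ncard h3 (Set.toFinite _)).trans ?_
      rw [Set.ncard_coe_finset]
      exact card_image_le
    · obtain ⟨v, hv⟩ := hne
      refine ⟨v, hv, ?_⟩
      have h3 : S ∩ (Gr e X inc f).neighborSet v = ∅ := by
        rw [Set.eq_empty_iff_forall_notMem]
        rcases v with a | b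
        · exact absurd ⟨a, hv⟩ h2
        · rw [nbr_inr]
          rintro _ ⟨hu, a, _, rfl⟩
          exact h2 ⟨a, hu⟩
      rw [h3]; simp

lemma clique_Gr (e : Z → B ≃ Y × Y) (he : ∀ a b : B, ∃ z, (e z a).1 = (e z b).1)
    (X : Finset Z) (hX : X.Nonempty) (inc : P → L → Prop)
    (f : Y × Fin t → P) (hf : Function.Injective f)
    (h2 : ∀ a b, a ≠ b → ∃ l, inc a l ∧ inc b l) (a a' : B × Fin t) (hne : a ≠ a') :
    (sq (Gr e X inc f)).Adj (Sum.inl a) (Sum.inl a') := by
  refine ⟨fun h => hne (Sum.inl_injective h), Or.inr ?_⟩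
  obtain ⟨A, i⟩ := a
  obtain ⟨A', j⟩ := a'
  by_cases hAB : A = A'
  · subst hAB
    obtain ⟨x, hx⟩ := hX
    exact ⟨Sum.inr (x, (e x A).1, none), ⟨rfl, Or.inl ⟨hx, rfl⟩⟩, ⟨rfl, Or.inl ⟨hx, rfl⟩⟩⟩
  · obtain ⟨x, hx⟩ := he A A'
    by_cases hxX : x ∈ X
    · exact ⟨Sum.inr (x, (e x A).1, none), ⟨rfl, Or.inl ⟨hxX, rfl⟩⟩, ⟨hx.symm, Or.inl ⟨hxX, rfl⟩⟩⟩
    · have hp : f ((e x A).2, i) ≠ f ((e x A').2, j) := by
        intro h
        have h' := hf h
        simp only [Prod.mk.injEq] at h'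
        exact hAB ((e x).injective (Prod.ext hx h'.1))
      obtain ⟨l, hl1, hl2⟩ := h2 _ _ hp
      exact ⟨Sum.inr (x, (e x A).1, some l), ⟨rfl, Or.inr ⟨hxX, l, rfl, hl1⟩⟩,
        ⟨hx.symm, Or.inr ⟨hxX, l, rfl, hl2⟩⟩⟩

end Graph

theorem core (k : ℕ) (hk : 1 ≤ k) {n N : ℕ} (hn : 1 ≤ n) (hpl : Plane n N) (hkN : k ≤ N)
    (P : Type) [Fintype P] (L : Type) [Fintype L] (inc : P → L → Prop) (r : ℕ)
    (h2 : ∀ a b, a ≠ b → ∃ l, inc a l ∧ inc b l)
    (h3 : ∀ l, {a | inc a l}.ncard ≤ k) (h4 : ∀ a, {l | inc a l}.ncard ≤ r) :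
    ∃ (V : Type) (_ : Fintype V) (G : SimpleGraph V), Degenerate k G ∧
      Fintype.card P ≤ maxDeg G + n ∧
      maxDeg G ≤ max (Fintype.card P) (k + (N - k) * r) ∧
      n * Fintype.card P ≤ chiSq G + n * n := by
  classical
  obtain ⟨Z, B, Y, i1, i2, i3, e, hZ, hY, he⟩ := hpl
  set s := Fintype.card P with hs
  obtain ⟨X, -, hX⟩ : ∃ X ⊆ (univ : Finset Z), X.card = k := by
    apply exists_subset_card_eq
    rw [card_univ, hZ]; omega
  have hXne : X.Nonempty := by rw [← card_pos, hX]; omega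
  obtain ⟨t, ht⟩ : ∃ t, t = s / n := ⟨_, rfl⟩
  have hts : n * t ≤ s := by rw [ht]; exact Nat.mul_div_le s n
  have hst : s ≤ n * t + n := by
    have := Nat.lt_div_mul_add (a := s) (b := n) (by omega)
    rw [← ht, mul_comm] at this
    omega
  obtain ⟨f⟩ : Nonempty (Y × Fin t ↪ P) := by
    apply Function.Embedding.nonempty_of_card_le
    rw [Fintype.card_prod, Fintype.card_fin, hY]; exact hts
  have hYne : Nonempty Y := by
    rw [← Fintype.card_pos_iff, hY]; omega
  have hB : Fintype.card B = n * n := by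
    obtain ⟨x, _⟩ := hXne
    rw [Fintype.card_congr (e x), Fintype.card_prod, hY]
  have hdeg1 : n * t ≤ maxDeg (Gr e X inc f) := by
    obtain ⟨x, hx⟩ := hXne
    obtain ⟨y⟩ := hYne
    refine le_trans ?_ (le_maxDeg _ (Sum.inr (x, y, none)))
    rw [nbr_inr, Set.ncard_image_of_injective _ Sum.inl_injective]
    have := deg_hub e X inc f x hx y
    rwa [hY] at this
  refine ⟨_, inferInstance, Gr e X inc f, ?_, ?_, ?_, ?_⟩
  · have := degenerate_Gr e X inc f f.injective k h3 (by rw [hX])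
    rwa [hX] at this
  · omega
  · apply maxDeg_le
    rintro (a | ⟨x, y, _ | l⟩)
    · rw [nbr_inl]
      refine (Set.ncard_image_le (Set.toFinite _)).trans ?_
      have := deg_clique e X inc f r h4 a
      rw [hX, hZ] at this
      exact this.trans (le_max_right _ _)
    · rw [nbr_inr]
      refine (Set.ncard_image_le (Set.toFinite _)).trans ?_
      have := deg_hub_le e X inc f (x, y, none)
      rw [hY] at this
      exact (this.trans hts).trans (le_max_left _ _)
    · rw [nbr_inr]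
      refine (Set.ncard_image_le (Set.toFinite _)).trans ?_
      refine (deg_conn e X inc f f.injective k h3 x y l).trans ?_
      exact (Nat.le_add_right _ _).trans (le_max_right _ _)
  · have hcl : (sq (Gr e X inc f)).IsClique
        ((univ.map ⟨Sum.inl, Sum.inl_injective⟩ : Finset ((B × Fin t) ⊕
          (Z × Y × Option L))) : Set ((B × Fin t) ⊕ (Z × Y × Option L))) := by
      intro u hu v hv huv
      simp only [coe_map, Function.Embedding.coeFn_mk, coe_univ, Set.image_univ,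
        Set.mem_range] at hu hv
      obtain ⟨a, rfl⟩ := hu
      obtain ⟨b, rfl⟩ := hv
      exact clique_Gr e he X hXne inc f f.injective h2 a b (fun h => huv (by rw [h]))
    have := le_chiSq _ _ hcl
    rw [card_map, card_univ, Fintype.card_prod, Fintype.card_fin, hB] at this
    calc n * s ≤ n * (n * t + n) := Nat.mul_le_mul_left _ hst
      _ = n * n * t + n * n := by ring
      _ ≤ _ := by omega

theorem main_log (k : ℕ) (hk : 2 ≤ k) {n N : ℕ} (hn : 1 ≤ n) (hpl : Plane n N) (hkN : k ≤ N)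
    (hN : N ≤ 2 * k - 1) :
    ∃ C : ℕ, ∀ m : ℕ, ∃ (V : Type) (_ : Fintype V) (G : SimpleGraph V), Degenerate k G ∧
      2 ^ m ≤ maxDeg G + C ∧ n * maxDeg G ≤ chiSq G + C * (m + 1) := by
  obtain ⟨c, hc⟩ := exists_cover k hk
  refine ⟨n * n + n * c + n * k + n, fun m => ?_⟩
  obtain ⟨P, i1, L, i2, inc, r, h1, h2, h3, h4, h5⟩ := hc m
  obtain ⟨V, i3, G, g1, g2, g3, g4⟩ := core k (by omega) hn hpl hkN P L inc r h2 h3 h4
  refine ⟨V, i3, G, g1, ?_, ?_⟩
  · have : n ≤ n * n + n * c + n * k + n := Nat.le_add_left _ _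
    omega
  · set s := Fintype.card P with hs
    have e1 : (N - k) * r ≤ s + c * (m + 1) := by
      refine le_trans ?_ h5
      rw [mul_comm]
      exact Nat.mul_le_mul_left _ (by omega)
    have e2 : maxDeg G ≤ s + (c * (m + 1) + k) := g3.trans (max_le (by omega) (by omega))
    have e3 : n * maxDeg G ≤ n * s + (n * c * (m + 1) + n * k) := by
      calc n * maxDeg G ≤ n * (s + (c * (m + 1) + k)) := Nat.mul_le_mul_left _ e2
        _ = _ := by ring
    have e5 : (n * n + n * c + n * k + n) * (m + 1) =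
        n * n * (m + 1) + n * c * (m + 1) + n * k * (m + 1) + n * (m + 1) := by ring
    have e6 : n * n ≤ n * n * (m + 1) := Nat.le_mul_of_pos_right _ (by omega)
    have e7 : n * k ≤ n * k * (m + 1) := Nat.le_mul_of_pos_right _ (by omega)
    rw [e5]
    omega

theorem slope (k : ℕ) (hk : 2 ≤ k) {n N : ℕ} (hn : 1 ≤ n) (hpl : Plane n N) (hkN : k ≤ N)
    (hN : N ≤ 2 * k - 1) (γ : ℝ) (h : DegBound k γ) : (n : ℝ) ≤ γ := by
  obtain ⟨C, hC⟩ := main_log k hk hn hpl hkN hN
  obtain ⟨C', hC'⟩ := h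
  by_contra hcon
  push Not at hcon
  set δ : ℝ := (n : ℝ) - γ with hδ
  have hδpos : 0 < δ := by rw [hδ]; linarith
  have hlim : Filter.Tendsto (fun n : ℕ => ((n : ℝ) + 1) / 2 ^ n) Filter.atTop (nhds 0) := by
    have h1 := tendsto_pow_const_div_const_pow_of_one_lt 1 (show (1 : ℝ) < 2 by norm_num)
    have h2 : Filter.Tendsto (fun n : ℕ => ((1 : ℝ) / 2) ^ n) Filter.atTop (nhds 0) :=
      tendsto_pow_atTop_nhds_zero_of_lt_one (by norm_num) (by norm_num)
    have h3 := h1.add h2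
    rw [add_zero] at h3
    refine h3.congr fun n => ?_
    rw [pow_one, one_div, inv_pow, add_div, one_div]
  set B : ℝ := δ * C + |C'| + C + 1 with hB
  have hBpos : 0 < B := by
    have : (0 : ℝ) ≤ C := Nat.cast_nonneg _
    have h1 : 0 ≤ δ * C := mul_nonneg hδpos.le this
    have h2 : 0 ≤ |C'| := abs_nonneg _
    rw [hB]; linarith
  have hev := hlim.eventually (gt_mem_nhds (show (0 : ℝ) < δ / B by positivity))
  obtain ⟨m, hm⟩ := hev.exists
  obtain ⟨V, i3, G, g1, g2, g3⟩ := hC m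
  have g4 := hC' V G g1
  have g2' : (2 : ℝ) ^ m ≤ maxDeg G + C := by exact_mod_cast g2
  have g3' : (n : ℝ) * maxDeg G ≤ chiSq G + C * (m + 1) := by exact_mod_cast g3
  have g6 : δ * maxDeg G ≤ C' + C * (m + 1) := by
    rw [hδ, sub_mul]; linarith
  have g7 : C' ≤ |C'| := le_abs_self _
  have g8 : δ * 2 ^ m ≤ δ * C + |C'| + C * (m + 1) := by
    have := mul_le_mul_of_nonneg_left g2' hδpos.le
    rw [mul_add] at this
    linarith
  have hn1 : (0 : ℝ) ≤ m := Nat.cast_nonneg _
  have hC0 : (0 : ℝ) ≤ C := Nat.cast_nonneg _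
  have g9 : δ * 2 ^ m ≤ B * (m + 1) := by
    have h1 : 0 ≤ δ * C := mul_nonneg hδpos.le hC0
    have h2 : 0 ≤ |C'| := abs_nonneg _
    rw [hB]
    nlinarith [mul_nonneg h1 hn1, mul_nonneg h2 hn1]
  have h2n : (0 : ℝ) < 2 ^ m := by positivity
  rw [div_lt_div_iff₀ h2n hBpos] at hm
  linarith

lemma list_bound (M : ℕ) (l : List ℕ) (h : ∀ p ∈ l, M ≤ p) :
    M ^ l.length ≤ l.prod ∧
      (l.map (· + 1)).prod * M ^ l.length ≤ l.prod * (M + 1) ^ l.length := by
  induction l with
  | nil => simp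
  | cons p l ih =>
    obtain ⟨ih1, ih2⟩ := ih fun q hq => h q (by simp [hq])
    have hp : M ≤ p := h p (by simp)
    simp only [List.length_cons, List.prod_cons, List.map_cons, pow_succ]
    refine ⟨?_, ?_⟩
    · rw [mul_comm]
      exact Nat.mul_le_mul hp ih1
    · have e1 : (p + 1) * M ≤ p * (M + 1) := by nlinarith
      calc (p + 1) * (l.map (· + 1)).prod * (M ^ l.length * M)
          = ((p + 1) * M) * ((l.map (· + 1)).prod * M ^ l.length) := by ring
        _ ≤ (p * (M + 1)) * (l.prod * (M + 1) ^ l.length) := Nat.mul_le_mul e1 ih2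
        _ = _ := by ring

theorem numbers (ε : ℝ) (hε : 0 < ε) (hε1 : ε ≤ 1) : ∃ k0 : ℕ, ∀ k : ℕ, k0 ≤ k →
    ∃ l : List ℕ, (∀ p ∈ l, p.Prime) ∧ (2 - ε) * k ≤ (l.prod : ℝ) ∧
      (((l.map (· + 1)).prod : ℕ) : ℝ) ≤ 2 * k - 1 := by
  -- the error factor
  have hlim : Filter.Tendsto (fun M : ℕ => Real.exp (9 * Real.log 2 / Real.log M))
      Filter.atTop (nhds 1) := by
    have h1 : Filter.Tendsto (fun M : ℕ => 9 * Real.log 2 / Real.log M) Filter.atTop (nhds 0) :=
      (Real.tendsto_log_atTop.comp tendsto_natCast_atTop_atTop).const_div_atTop _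
    have h2 := (Real.continuous_exp.tendsto 0).comp h1
    rw [Real.exp_zero] at h2
    exact h2
  obtain ⟨M0, hM0⟩ := Filter.eventually_atTop.mp
    (hlim.eventually (gt_mem_nhds (show (1 : ℝ) < 1 + ε / 8 by linarith)))
  obtain ⟨K1, hK1⟩ := exists_nat_ge (16 / ε ^ 2)
  obtain ⟨K2, hK2⟩ := exists_nat_ge (4 / ε)
  refine ⟨max (16 ^ (M0 + 2)) (max K1 K2), fun k hk => ?_⟩
  have hk1 : 16 ^ (M0 + 2) ≤ k := (le_max_left _ _).trans hk
  have hk2 : 16 / ε ^ 2 ≤ (k : ℝ) := hK1.trans (by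
    exact_mod_cast ((le_max_left _ _).trans (le_max_right _ _)).trans hk)
  have hk3 : 4 / ε ≤ (k : ℝ) := hK2.trans (by
    exact_mod_cast ((le_max_right _ _).trans (le_max_right _ _)).trans hk)
  have hk0 : k ≠ 0 := by
    have : 0 < 16 ^ (M0 + 2) := by positivity
    omega
  obtain ⟨M, hM⟩ : ∃ M, M = Nat.log 16 k := ⟨_, rfl⟩
  have hM1 : M0 + 2 ≤ M := by
    rw [hM]; exact Nat.le_log_of_pow_le (by norm_num) hk1
  have hM2 : 16 ^ M ≤ k := by rw [hM]; exact Nat.pow_log_le_self 16 hk0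
  have hM3 : k < 16 ^ (M + 1) := by
    rw [hM]; exact Nat.lt_pow_succ_log_self (by norm_num) k
  obtain ⟨W, hW⟩ : ∃ W, W = primorial M := ⟨_, rfl⟩
  have hWpos : 0 < W := by rw [hW]; exact primorial_pos M
  have hW4 : W ≤ 4 ^ M := by rw [hW]; exact primorial_le_four_pow M
  have hWW : W * W ≤ k := by
    calc W * W ≤ 4 ^ M * 4 ^ M := Nat.mul_le_mul hW4 hW4
      _ = 16 ^ M := by rw [← mul_pow]; norm_num
      _ ≤ k := hM2
  have hkR : (1 : ℝ) ≤ k := by exact_mod_cast Nat.one_le_iff_ne_zero.mpr hk0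
  obtain ⟨T, hT⟩ : ∃ T, T = ⌊(2 - ε / 2) * (k : ℝ)⌋₊ := ⟨_, rfl⟩
  have hT0 : 0 ≤ (2 - ε / 2) * (k : ℝ) := by
    apply mul_nonneg <;> linarith
  have hT1 : (T : ℝ) ≤ (2 - ε / 2) * k := by rw [hT]; exact Nat.floor_le hT0
  have hT2 : (2 - ε / 2) * (k : ℝ) < T + 1 := by rw [hT]; exact Nat.lt_floor_add_one _
  have hTpos : 1 ≤ T := by
    have : (1 : ℝ) ≤ (2 - ε / 2) * k := by nlinarith
    rw [hT]; exact Nat.le_floor (by exact_mod_cast this)
  obtain ⟨n, hn⟩ : ∃ n, n = (T - 1) / W * W + 1 := ⟨_, rfl⟩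
  have hnT : n ≤ T := by
    have := Nat.div_mul_le_self (T - 1) W
    omega
  have hTn : T < n + W := by
    have := Nat.lt_div_mul_add (a := T - 1) (b := W) hWpos
    omega
  have hn0 : n ≠ 0 := by omega
  have hprime : ∀ p ∈ n.primeFactorsList, M ≤ p := by
    intro p hp
    by_contra hlt
    push Not at hlt
    have hpp : p.Prime := Nat.prime_of_mem_primeFactorsList hp
    have hpn : p ∣ n := Nat.dvd_of_mem_primeFactorsList hp
    have hpW : p ∣ W := by
      rw [hW]; exact (hpp.dvd_primorial_iff).mpr hlt.le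
    have : p ∣ 1 := by
      have h1 : p ∣ (T - 1) / W * W := hpW.mul_left _
      rw [hn] at hpn
      exact (Nat.dvd_add_right h1).mp hpn
    exact hpp.one_lt.ne' (Nat.dvd_one.mp this)
  obtain ⟨b1, b2⟩ := list_bound M n.primeFactorsList hprime
  rw [Nat.prod_primeFactorsList hn0] at b1 b2
  set Ω := n.primeFactorsList.length with hΩ
  set N := (n.primeFactorsList.map (· + 1)).prod with hNdef
  refine ⟨n.primeFactorsList, fun p hp => Nat.prime_of_mem_primeFactorsList hp, ?_, ?_⟩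
  · rw [Nat.prod_primeFactorsList hn0]
    have h1 : (T : ℝ) < n + W := by exact_mod_cast hTn
    have h2 : (W : ℝ) * W ≤ k := by exact_mod_cast hWW
    have h3 : (4 : ℝ) ≤ ε * k := by
      rw [div_le_iff₀ hε] at hk3; linarith
    have h4 : (16 : ℝ) ≤ ε ^ 2 * k := by
      rw [div_le_iff₀ (by positivity)] at hk2; linarith
    have h5 : (W : ℝ) ≤ ε / 4 * k := by
      have hW0 : (0 : ℝ) ≤ W := Nat.cast_nonneg _
      nlinarith [mul_nonneg hε.le hW0, sq_nonneg (ε * W - 4), mul_self_nonneg (W : ℝ)]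
    nlinarith
  · have hMpos : (2 : ℝ) ≤ M := by
      have : 2 ≤ M := by omega
      exact_mod_cast this
    have hM0' : (0 : ℝ) < M := by linarith
    have hlogM : 0 < Real.log M := Real.log_pos (by linarith)
    have hlog2 : 0 < Real.log 2 := Real.log_pos (by norm_num)
    -- the number of prime factors
    have c1 : (Ω : ℝ) * Real.log M ≤ (4 * M + 5) * Real.log 2 := by
      have h1 : (M : ℝ) ^ Ω ≤ 2 ^ (4 * M + 5) := by
        have h2 : M ^ Ω ≤ 2 ^ (4 * M + 5) := by
          refine b1.trans ?_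
          have h3 : n ≤ 2 * k := by
            have : (n : ℝ) ≤ 2 * k := by
              have : (n : ℝ) ≤ T := by exact_mod_cast hnT
              nlinarith
            exact_mod_cast this
          have h4 : (16 : ℕ) ^ (M + 1) = 2 ^ (4 * M + 4) := by
            rw [show (16 : ℕ) = 2 ^ 4 by norm_num, ← pow_mul]; ring_nf
          have h5 : (2 : ℕ) ^ (4 * M + 5) = 2 * 2 ^ (4 * M + 4) := by
            rw [show 4 * M + 5 = (4 * M + 4) + 1 by ring, pow_succ]; ring
          rw [h4] at hM3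
          rw [h5]
          omega
        exact_mod_cast h2
      have h2 := Real.log_le_log (by positivity) h1
      rw [Real.log_pow, Real.log_pow] at h2
      push_cast at h2
      exact h2
    have c2 : (Ω : ℝ) / M ≤ 9 * Real.log 2 / Real.log M := by
      rw [div_le_div_iff₀ hM0' hlogM]
      nlinarith
    have c3 : (1 + 1 / (M : ℝ)) ^ Ω ≤ Real.exp (9 * Real.log 2 / Real.log M) := by
      have h1 : 1 + 1 / (M : ℝ) ≤ Real.exp (1 / M) := by
        have := Real.add_one_le_exp (1 / (M : ℝ)); linarith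
      calc (1 + 1 / (M : ℝ)) ^ Ω ≤ (Real.exp (1 / M)) ^ Ω := by gcongr
        _ = Real.exp (Ω / M) := by rw [← Real.exp_nat_mul]; congr 1; ring
        _ ≤ _ := Real.exp_le_exp.mpr c2
    have c4 := hM0 M (by omega)
    have c5 : (N : ℝ) ≤ n * (1 + 1 / (M : ℝ)) ^ Ω := by
      have h1 : (N : ℝ) * (M : ℝ) ^ Ω ≤ n * ((M : ℝ) + 1) ^ Ω := by exact_mod_cast b2
      have h2 : (1 + 1 / (M : ℝ)) ^ Ω = ((M : ℝ) + 1) ^ Ω / (M : ℝ) ^ Ω := by
        rw [← div_pow]; congr 1; field_simp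
      rw [h2, ← mul_div_assoc, le_div_iff₀ (by positivity)]
      exact h1
    have c6 : (N : ℝ) ≤ n * (1 + ε / 8) := c5.trans (by
      apply mul_le_mul_of_nonneg_left (c3.trans c4.le) (Nat.cast_nonneg _))
    have c7 : (n : ℝ) ≤ (2 - ε / 2) * k := le_trans (by exact_mod_cast hnT) hT1
    have c8 : (4 : ℝ) ≤ ε * k := by
      rw [div_le_iff₀ hε] at hk3; linarith
    have c9 : (N : ℝ) ≤ (2 - ε / 2) * k * (1 + ε / 8) := c6.trans (by
      apply mul_le_mul_of_nonneg_right c7; linarith)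
    have c10 : 0 ≤ ε ^ 2 * (k : ℝ) := by positivity
    nlinarith

/-- The slopes of `M_k(D)` and `M'_k(D)` are at least `(2 - ε) k` for all large `k`. -/
theorem result (ε : ℝ) (hε : 0 < ε) : ∃ k0 : ℕ, ∀ k : ℕ, k0 ≤ k → ∀ γ : ℝ,
    DegBound k γ ∨ MadBound k γ → (2 - ε) * k ≤ γ := by
  set ε' := min ε 1 with hε'
  have h0 : 0 < ε' := lt_min hε one_pos
  obtain ⟨k0, hk0⟩ := numbers ε' h0 (min_le_right _ _)
  refine ⟨max k0 2, fun k hk γ hγ => ?_⟩
  have hk2 : 2 ≤ k := (le_max_right _ _).trans hk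
  have h : DegBound k γ := by
    rcases hγ with h | h
    · exact h
    · exact h.deg (by omega)
  obtain ⟨l, hl, h1, h2⟩ := hk0 k ((le_max_left _ _).trans hk)
  have hkR : (2 : ℝ) ≤ k := by exact_mod_cast hk2
  have hle : l.prod ≤ (l.map (· + 1)).prod := by
    clear h1 h2 hl
    induction l with
    | nil => simp
    | cons p l ih =>
      rw [List.map_cons, List.prod_cons, List.prod_cons]
      exact Nat.mul_le_mul (Nat.le_succ p) ih
  have hn1 : (1 : ℝ) * k ≤ (l.prod : ℝ) := le_trans (by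
    have : ε' ≤ 1 := min_le_right _ _
    nlinarith) h1
  have hkl : k ≤ l.prod := by
    rw [one_mul] at hn1; exact_mod_cast hn1
  have hN : (l.map (· + 1)).prod ≤ 2 * k - 1 := by
    have : (((l.map (· + 1)).prod : ℕ) : ℝ) + 1 ≤ 2 * k := by linarith
    have : (l.map (· + 1)).prod + 1 ≤ 2 * k := by exact_mod_cast this
    omega
  have := slope k hk2 (by omega) (Plane.list l hl) (hkl.trans hle) hN γ h
  have h3 : (2 - ε) * (k : ℝ) ≤ (2 - ε') * k := by
    have : ε' ≤ ε := min_le_left _ _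
    nlinarith
  linarith

end Pool.Agent.Results.MP_f97382_co.SlopeAsymptotic
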