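import Mathlib

set_option autoImplicit false
set_option linter.unusedSectionVars false

/-!
# MP_f97382_co: lower bounds for the slope of `M_k(D)` and `M'_k(D)`

Hubs: the points of `k` of the `q + 1` parallel classes of (the dual of) an affine plane of order
`q`; clique vertices: `t` copies of every line `y = a x + b`; pairs of copies whose lines meet in
none of the `k` chosen classes get a common neighbour of degree at most `k` (a block of a linear
space with blocks of size at most `k`, built from transversal designs over `ZMod N`).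
-/

namespace Pool.Agent.Results.MP_f97382_co.SlopeLower

open Finset

theorem exists_lines (K : Type) [Field K] [Fintype K] (n : ℕ) :
    ∃ (P : Type) (_ : AddCommGroup P) (_ : Module K P) (_ : Fintype P) (L : Type) (_ : Fintype L)
      (inc : P → L → Prop) (r : ℕ),
      Fintype.card P = Fintype.card K ^ n ∧
      (∀ a b, a ≠ b → ∃ l, inc a l ∧ inc b l) ∧
      (∀ l, {a | inc a l}.ncard ≤ Fintype.card K) ∧
      (∀ a, {l | inc a l}.ncard ≤ r) ∧
      r * (Fintype.card K - 1) + 1 = Fintype.card K ^ n := by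
  classical
  induction n with
  | zero =>
    refine ⟨PUnit, inferInstance, inferInstance, inferInstance, Empty, inferInstance,
      fun _ l => l.elim, 0, by simp, ?_, ?_, ?_, by simp⟩
    · intro a b h
      exact absurd (Subsingleton.elim a b) h
    · intro l
      exact l.elim
    · intro a
      have : {l : Empty | (fun (_ : PUnit) (l : Empty) => (l.elim : Prop)) a l} = ∅ := by
        ext l; exact l.elim
      rw [this]; simp
  | succ n ih =>
    obtain ⟨P, i1, i2, i3, L, i4, inc, r, hP, h2, hL, hr, hrn⟩ := ih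
    refine ⟨K × P, inferInstance, inferInstance, inferInstance, (K × L) ⊕ (P × P), inferInstance,
      fun a l => Sum.elim (fun cl : K × L => a.1 = cl.1 ∧ inc a.2 cl.2)
        (fun uv : P × P => a.2 = uv.1 + a.1 • uv.2) l, r + Fintype.card K ^ n, ?_, ?_, ?_, ?_, ?_⟩
    · rw [Fintype.card_prod, hP, pow_succ, mul_comm]
    · rintro ⟨c, u⟩ ⟨c', u'⟩ hne
      by_cases hc : c = c'
      · subst hc
        have hu : u ≠ u' := fun h => hne (by rw [h])
        obtain ⟨l, h1, h3⟩ := h2 u u' hu
        exact ⟨Sum.inl (c, l), ⟨rfl, h1⟩, ⟨rfl, h3⟩⟩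
      · refine ⟨Sum.inr (u - c • ((c - c')⁻¹ • (u - u')), (c - c')⁻¹ • (u - u')), ?_, ?_⟩
        · simp
        · have h : u - u' = (c - c') • ((c - c')⁻¹ • (u - u')) := by
            rw [smul_smul, mul_inv_cancel₀ (sub_ne_zero.mpr hc), one_smul]
          rw [sub_smul] at h
          show u' = u - c • ((c - c')⁻¹ • (u - u')) + c' • ((c - c')⁻¹ • (u - u'))
          generalize c • ((c - c')⁻¹ • (u - u')) = s1 at h ⊢
          generalize c' • ((c - c')⁻¹ • (u - u')) = s2 at h ⊢
          have : u' = u - (u - u') := by abel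
          rw [h] at this
          rw [this]; abel
    · rintro (⟨c, l⟩ | ⟨u, v⟩)
      · have hs : {a : K × P | Sum.elim (fun cl : K × L => a.1 = cl.1 ∧ inc a.2 cl.2)
            (fun uv : P × P => a.2 = uv.1 + a.1 • uv.2) (Sum.inl (c, l))} ⊆
            (fun p => (c, p)) '' {a | inc a l} := by
          rintro ⟨c', p⟩ ⟨h1, h3⟩
          exact ⟨p, h3, by simp only at h1; rw [h1]⟩
        exact (Set.ncard_le_ncard hs (Set.toFinite _)).trans
          ((Set.ncard_image_le (Set.toFinite _)).trans (hL l))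
      · have hs : {a : K × P | Sum.elim (fun cl : K × L => a.1 = cl.1 ∧ inc a.2 cl.2)
            (fun uv : P × P => a.2 = uv.1 + a.1 • uv.2) (Sum.inr (u, v))} ⊆
            (fun c : K => (c, u + c • v)) '' Set.univ := by
          rintro ⟨c', p⟩ h1
          exact ⟨c', trivial, by
            have : p = u + c' • v := h1
            rw [this]⟩
        refine (Set.ncard_le_ncard hs (Set.toFinite _)).trans
          ((Set.ncard_image_le (Set.toFinite _)).trans ?_)
        rw [Set.ncard_univ, Nat.card_eq_fintype_card]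
    · rintro ⟨c, w⟩
      have hs : {l : (K × L) ⊕ (P × P) | Sum.elim (fun cl : K × L => (c, w).1 = cl.1 ∧ inc (c, w).2 cl.2)
            (fun uv : P × P => (c, w).2 = uv.1 + (c, w).1 • uv.2) l} ⊆
            ((fun l => Sum.inl (c, l)) '' {l | inc w l}) ∪
            ((fun v => Sum.inr (w - c • v, v)) '' (Set.univ : Set P)) := by
        rintro (⟨c', l⟩ | ⟨u, v⟩) h
        · left
          have h1 : c = c' := h.1
          have h3 : inc w l := h.2
          exact ⟨l, h3, by rw [h1]⟩
        · right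
          have h1 : w = u + c • v := h
          exact ⟨v, trivial, by rw [h1]; simp⟩
      refine (Set.ncard_le_ncard hs (Set.toFinite _)).trans ((Set.ncard_union_le _ _).trans ?_)
      refine Nat.add_le_add ((Set.ncard_image_le (Set.toFinite _)).trans (hr w)) ?_
      refine (Set.ncard_image_le (Set.toFinite _)).trans ?_
      rw [Set.ncard_univ, Nat.card_eq_fintype_card, hP]
    · have hq : 1 ≤ Fintype.card K := Fintype.card_pos
      obtain ⟨s, hs⟩ := Nat.exists_eq_add_of_le hq
      rw [hs] at hrn ⊢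
      simp only [Nat.add_sub_cancel_left] at hrn ⊢
      rw [pow_succ, ← hrn]
      nlinarith [hrn]

/-- the value of the line `y = s x + b` at the abscissa `x`; at infinity: its slope -/
def val {F : Type} [Field F] : Option F → F × F → F
  | none, A => A.1
  | some x, A => A.1 * x + A.2

/-- the other coordinate -/
def par {F : Type} [Field F] : Option F → F × F → F
  | none, A => A.2
  | some _, A => A.1

/-- the line with given value and given other coordinate -/
def mk {F : Type} [Field F] : Option F → F → F → F × F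
  | none, y, p => (y, p)
  | some x, y, p => (p, y - p * x)

lemma val_mk {F : Type} [Field F] (x : Option F) (y p : F) : val x (mk x y p) = y := by
  cases x <;> simp [val, mk]

lemma par_mk {F : Type} [Field F] (x : Option F) (y p : F) : par x (mk x y p) = p := by
  cases x <;> simp [par, mk]

lemma mk_val_par {F : Type} [Field F] (x : Option F) (A : F × F) : mk x (val x A) (par x A) = A := by
  cases x <;> simp [val, par, mk]

lemma exists_val {F : Type} [Field F] (A B : F × F) : ∃ x : Option F, val x A = val x B := by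
  by_cases h : A.1 = B.1
  · exact ⟨none, h⟩
  · refine ⟨some ((B.2 - A.2) / (A.1 - B.1)), ?_⟩
    have h' : A.1 - B.1 ≠ 0 := sub_ne_zero.mpr h
    simp only [val]
    field_simp
    ring

section Graph

variable {F P L : Type} [Field F] {t : ℕ}

/-- the incidences between clique vertices and the other vertices -/
def R (X : Finset (Option F)) (inc : P → L → Prop) (e : F × Fin t → P)
    (a : (F × F) × Fin t) (b : Option F × F × Option L) : Prop :=
  val b.1 a.1 = b.2.1 ∧ ((b.1 ∈ X ∧ b.2.2 = none) ∨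
    (b.1 ∉ X ∧ ∃ l, b.2.2 = some l ∧ inc (e (par b.1 a.1, a.2)) l))

/-- the bipartite graph -/
def Gr (X : Finset (Option F)) (inc : P → L → Prop) (e : F × Fin t → P) :
    SimpleGraph (((F × F) × Fin t) ⊕ (Option F × F × Option L)) where
  Adj u v := match u, v with
    | Sum.inl a, Sum.inr b => R X inc e a b
    | Sum.inr b, Sum.inl a => R X inc e a b
    | _, _ => False
  symm := ⟨by
    rintro (a | b) (a' | b') h
    · exact h
    · exact h
    · exact h
    · exact h⟩
  loopless := ⟨by
    rintro (a | b) h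
    · exact h
    · exact h⟩

end Graph

/-- `G` is `k`-degenerate: every nonempty finite set `S` of vertices contains a vertex with at most
`k` neighbours in `S` (equivalently, every nonempty finite subgraph has a vertex of degree at most `k`) -/
def Degenerate {V : Type} (k : ℕ) (G : SimpleGraph V) : Prop :=
  ∀ S : Set V, S.Finite → S.Nonempty → ∃ v ∈ S, (S ∩ G.neighborSet v).ncard ≤ k

/-- the square of a graph: distinct vertices at distance at most two -/
def sq {V : Type} (G : SimpleGraph V) : SimpleGraph V where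
  Adj u v := u ≠ v ∧ (G.Adj u v ∨ ∃ w, G.Adj u w ∧ G.Adj w v)
  symm := ⟨by
    rintro u v ⟨h, h1 | ⟨w, h1, h2⟩⟩
    · exact ⟨h.symm, Or.inl h1.symm⟩
    · exact ⟨h.symm, Or.inr ⟨w, h2.symm, h1.symm⟩⟩⟩
  loopless := ⟨fun u h => h.1 rfl⟩

/-- the maximum degree -/
noncomputable def maxDeg {V : Type} [Fintype V] (G : SimpleGraph V) : ℕ := by
  classical exact G.maxDegree

lemma degree_eq {V : Type} [Fintype V] (G : SimpleGraph V) (v : V) [DecidableRel G.Adj] :
    G.degree v = (G.neighborSet v).ncard := by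
  rw [← SimpleGraph.card_neighborSet_eq_degree, Set.ncard_eq_toFinset_card', Set.toFinset_card]

lemma maxDeg_le {V : Type} [Fintype V] (G : SimpleGraph V) (D : ℕ)
    (h : ∀ v, (G.neighborSet v).ncard ≤ D) : maxDeg G ≤ D := by
  classical
  unfold maxDeg
  apply SimpleGraph.maxDegree_le_of_forall_degree_le
  intro v
  rw [degree_eq]; exact h v

lemma le_maxDeg {V : Type} [Fintype V] (G : SimpleGraph V) (v : V) :
    (G.neighborSet v).ncard ≤ maxDeg G := by
  classical
  unfold maxDeg
  rw [← degree_eq]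
  exact G.degree_le_maxDegree v

section Main

variable {F P L : Type} [Field F] [Fintype F] [Fintype P] [Fintype L] {t : ℕ}

lemma nbr_inr (X : Finset (Option F)) (inc : P → L → Prop) (e : F × Fin t → P)
    (b : Option F × F × Option L) :
    (Gr X inc e).neighborSet (Sum.inr b) = Sum.inl '' {a | R X inc e a b} := by
  ext u
  rcases u with a | b'
  · simp [SimpleGraph.mem_neighborSet, Gr]
  · simp [SimpleGraph.mem_neighborSet, Gr]

lemma nbr_inl (X : Finset (Option F)) (inc : P → L → Prop) (e : F × Fin t → P)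
    (a : (F × F) × Fin t) :
    (Gr X inc e).neighborSet (Sum.inl a) = Sum.inr '' {b | R X inc e a b} := by
  ext u
  rcases u with a' | b
  · simp [SimpleGraph.mem_neighborSet, Gr]
  · simp [SimpleGraph.mem_neighborSet, Gr]

lemma inj_class (x : Option F) (y : F) :
    Set.InjOn (fun a : (F × F) × Fin t => (par x a.1, a.2)) {a | val x a.1 = y} := by
  rintro ⟨A, i⟩ hA ⟨B, j⟩ hB h
  simp only [Set.mem_setOf_eq] at hA hB
  simp only [Prod.mk.injEq] at h
  have : A = B := by
    rw [← mk_val_par x A, ← mk_val_par x B, hA, hB, h.1]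
  rw [this, h.2]

lemma deg_hub_le (X : Finset (Option F)) (inc : P → L → Prop) (e : F × Fin t → P)
    (b : Option F × F × Option L) :
    {a | R X inc e a b}.ncard ≤ Fintype.card F * t := by
  have h1 : {a | R X inc e a b} ⊆ {a | val b.1 a.1 = b.2.1} := fun a h => h.1
  have h2 : ({a : (F × F) × Fin t | val b.1 a.1 = b.2.1}).ncard ≤ Fintype.card F * t := by
    rw [← Set.ncard_image_of_injOn (inj_class b.1 b.2.1)]
    refine (Set.ncard_le_ncard (Set.subset_univ _) (Set.toFinite _)).trans ?_
    rw [Set.ncard_univ, Nat.card_eq_fintype_card]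
    simp
  exact (Set.ncard_le_ncard h1 (Set.toFinite _)).trans h2

lemma deg_hub (X : Finset (Option F)) (inc : P → L → Prop) (e : F × Fin t → P)
    (x : Option F) (hx : x ∈ X) (y : F) :
    Fintype.card F * t ≤ {a | R X inc e a (x, y, none)}.ncard := by
  have h1 : (fun pi : F × Fin t => (mk x y pi.1, pi.2)) '' Set.univ ⊆
      {a | R X inc e a (x, y, none)} := by
    rintro _ ⟨⟨p, i⟩, -, rfl⟩
    exact ⟨val_mk x y p, Or.inl ⟨hx, rfl⟩⟩
  refine le_trans ?_ (Set.ncard_le_ncard h1 (Set.toFinite _))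
  rw [Set.ncard_image_of_injective, Set.ncard_univ, Nat.card_eq_fintype_card]
  · simp
  · rintro ⟨p, i⟩ ⟨p', i'⟩ h
    simp only [Prod.mk.injEq] at h
    have : p = p' := by rw [← par_mk x y p, h.1, par_mk]
    rw [this, h.2]

lemma deg_conn (X : Finset (Option F)) (inc : P → L → Prop) (e : F × Fin t → P)
    (he : Function.Injective e) (m : ℕ) (hm : ∀ l, {a | inc a l}.ncard ≤ m)
    (x : Option F) (y : F) (l : L) :
    {a | R X inc e a (x, y, some l)}.ncard ≤ m := by
  have hinj : Set.InjOn (fun a : (F × F) × Fin t => e (par x a.1, a.2))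
      {a | R X inc e a (x, y, some l)} := by
    intro a ha b hb h
    exact inj_class x y ha.1 hb.1 (he h)
  rw [← Set.ncard_image_of_injOn hinj]
  refine le_trans (Set.ncard_le_ncard ?_ (Set.toFinite _)) (hm l)
  rintro _ ⟨a, ha, rfl⟩
  rcases ha.2 with ⟨_, h⟩ | ⟨_, l', h, h'⟩
  · simp at h
  · simp only [Option.some.injEq] at h
    rw [h]; exact h'

lemma deg_clique [DecidableEq F] (X : Finset (Option F)) (inc : P → L → Prop) (e : F × Fin t → P)
    (r : ℕ) (hr : ∀ a, {l | inc a l}.ncard ≤ r) (a : (F × F) × Fin t) :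
    {b | R X inc e a b}.ncard ≤ X.card + (Fintype.card F + 1 - X.card) * r := by
  classical
  have h1 : {b | R X inc e a b} ⊆
      ((X.image (fun x => ((x, val x a.1, none) : Option F × F × Option L)) ∪
      (univ \ X).biUnion (fun x => (univ.filter (fun l => inc (e (par x a.1, a.2)) l)).image
        (fun l => ((x, val x a.1, some l) : Option F × F × Option L))) :
        Finset (Option F × F × Option L)) : Set (Option F × F × Option L)) := by
    rintro ⟨x, y, o⟩ ⟨h1, ⟨h2, h3⟩ | ⟨h2, l, h3, h4⟩⟩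
    · simp only at h1 h2 h3
      subst h3
      simp only [coe_union, coe_image, Set.mem_union, Set.mem_image, mem_coe]
      left
      exact ⟨x, h2, by rw [h1]⟩
    · simp only at h1 h2 h3 h4
      subst h3
      rw [coe_union]
      right
      simp only [mem_coe, mem_biUnion, mem_image, mem_filter, mem_sdiff, mem_univ, true_and]
      exact ⟨x, h2, l, h4, by rw [h1]⟩
  refine (Set.ncard_le_ncard h1 (Set.toFinite _)).trans ?_
  rw [Set.ncard_coe_finset]
  refine (card_union_le _ _).trans (Nat.add_le_add card_image_le ?_)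
  refine (card_biUnion_le_card_mul _ _ r ?_).trans ?_
  · intro x _
    refine card_image_le.trans ?_
    have := hr (e (par x a.1, a.2))
    rwa [Set.ncard_eq_toFinset_card', Set.toFinset_setOf] at this
  · rw [card_sdiff_of_subset (subset_univ _), card_univ, Fintype.card_option]

lemma degenerate_Gr (X : Finset (Option F)) (inc : P → L → Prop) (e : F × Fin t → P)
    (he : Function.Injective e) (m : ℕ) (hm : ∀ l, {a | inc a l}.ncard ≤ m) (hmX : m ≤ X.card) :
    Degenerate X.card (Gr X inc e) := by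
  classical
  intro S hS hne
  by_cases h1 : ∃ x y l, Sum.inr (x, y, some l) ∈ S
  · obtain ⟨x, y, l, h⟩ := h1
    refine ⟨_, h, ?_⟩
    refine (Set.ncard_le_ncard Set.inter_subset_right (Set.toFinite _)).trans ?_
    rw [nbr_inr]
    exact (Set.ncard_image_le (Set.toFinite _)).trans ((deg_conn X inc e he m hm x y l).trans hmX)
  · by_cases h2 : ∃ a, Sum.inl a ∈ S
    · obtain ⟨a, ha⟩ := h2
      refine ⟨_, ha, ?_⟩
      have h3 : S ∩ (Gr X inc e).neighborSet (Sum.inl a) ⊆
          ((X.image (fun x => (Sum.inr (x, val x a.1, none) :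
            ((F × F) × Fin t) ⊕ (Option F × F × Option L))) :
            Finset (((F × F) × Fin t) ⊕ (Option F × F × Option L))) : Set _) := by
        rw [nbr_inl]
        rintro _ ⟨hu, ⟨x, y, o⟩, hb, rfl⟩
        rcases hb with ⟨h4, ⟨h5, h6⟩ | ⟨h5, l, h6, h7⟩⟩
        · simp only at h4 h5 h6
          subst h6
          simp only [coe_image, Set.mem_image, mem_coe]
          exact ⟨x, h5, by rw [h4]⟩
        · simp only at h6
          subst h6
          exact absurd ⟨x, y, l, hu⟩ h1
      refine (Set.ncard_le_ncard h3 (Set.toFinite _)).trans ?_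
      rw [Set.ncard_coe_finset]
      exact card_image_le
    · obtain ⟨v, hv⟩ := hne
      refine ⟨v, hv, ?_⟩
      have h3 : S ∩ (Gr X inc e).neighborSet v = ∅ := by
        rw [Set.eq_empty_iff_forall_notMem]
        rcases v with a | b
        · exact absurd ⟨a, hv⟩ h2
        · rw [nbr_inr]
          rintro _ ⟨hu, a, _, rfl⟩
          exact h2 ⟨a, hu⟩
      rw [h3]; simp

lemma clique_Gr (X : Finset (Option F)) (hX : X.Nonempty) (inc : P → L → Prop)
    (e : F × Fin t → P) (he : Function.Injective e)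
    (h2 : ∀ a b, a ≠ b → ∃ l, inc a l ∧ inc b l) (a a' : (F × F) × Fin t) (hne : a ≠ a') :
    (sq (Gr X inc e)).Adj (Sum.inl a) (Sum.inl a') := by
  refine ⟨fun h => hne (Sum.inl_injective h), Or.inr ?_⟩
  obtain ⟨A, i⟩ := a
  obtain ⟨B, j⟩ := a'
  by_cases hAB : A = B
  · subst hAB
    obtain ⟨x, hx⟩ := hX
    exact ⟨Sum.inr (x, val x A, none), ⟨rfl, Or.inl ⟨hx, rfl⟩⟩, ⟨rfl, Or.inl ⟨hx, rfl⟩⟩⟩
  · obtain ⟨x, hx⟩ := exists_val A B
    by_cases hxX : x ∈ X
    · exact ⟨Sum.inr (x, val x A, none), ⟨rfl, Or.inl ⟨hxX, rfl⟩⟩, ⟨hx.symm, Or.inl ⟨hxX, rfl⟩⟩⟩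
    · have hp : e (par x A, i) ≠ e (par x B, j) := by
        intro h
        have h' := he h
        simp only [Prod.mk.injEq] at h'
        apply hAB
        rw [← mk_val_par x A, ← mk_val_par x B, hx, h'.1]
      obtain ⟨l, hl1, hl2⟩ := h2 _ _ hp
      exact ⟨Sum.inr (x, val x A, some l), ⟨rfl, Or.inr ⟨hxX, l, rfl, hl1⟩⟩,
        ⟨hx.symm, Or.inr ⟨hxX, l, rfl, hl2⟩⟩⟩

end Main

theorem exists_cover (k : ℕ) (hk : 2 ≤ k) : ∃ c : ℕ, ∀ n : ℕ,
    ∃ (P : Type) (_ : Fintype P) (L : Type) (_ : Fintype L) (inc : P → L → Prop) (r : ℕ),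
      2 ^ n ≤ Fintype.card P ∧
      (∀ a b, a ≠ b → ∃ l, inc a l ∧ inc b l) ∧
      (∀ l, {a | inc a l}.ncard ≤ k) ∧
      (∀ a, {l | inc a l}.ncard ≤ r) ∧
      r * (k - 1) ≤ Fintype.card P + c * (n + 1) := by
  classical
  set g := (k - 1).factorial with hg
  have hg1 : 1 ≤ g := Nat.factorial_pos _
  refine ⟨8 * g * (k - 1), fun n => ?_⟩
  suffices H : ∃ (P : Type) (_ : Fintype P) (L : Type) (_ : Fintype L) (inc : P → L → Prop) (r : ℕ),
      2 * g + 2 * g * 2 ^ n ≤ Fintype.card P ∧
      (∀ a b, a ≠ b → ∃ l, inc a l ∧ inc b l) ∧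
      (∀ l, {a | inc a l}.ncard ≤ k) ∧
      (∀ a, {l | inc a l}.ncard ≤ r) ∧
      r * (k - 1) ≤ Fintype.card P + 8 * g * (k - 1) * (n + 1) by
    obtain ⟨P, i1, L, i2, inc, r, h1, h2, h3, h4, h5⟩ := H
    refine ⟨P, i1, L, i2, inc, r, ?_, h2, h3, h4, h5⟩
    have : 2 ^ n ≤ 2 * g * 2 ^ n := Nat.le_mul_of_pos_left _ (by omega)
    omega
  induction n with
  | zero =>
    refine ⟨Fin (4 * g), inferInstance, Fin (4 * g) × Fin (4 * g), inferInstance,
      fun a l => a = l.1 ∨ a = l.2, 2 * (4 * g), ?_, ?_, ?_, ?_, ?_⟩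
    · simp; omega
    · intro a b _
      exact ⟨(a, b), Or.inl rfl, Or.inr rfl⟩
    · rintro ⟨a, b⟩
      have : {x : Fin (4 * g) | x = (a, b).1 ∨ x = (a, b).2} ⊆ {a, b} := by
        rintro x (h | h)
        · exact Or.inl h
        · exact Or.inr h
      exact ((Set.ncard_le_ncard this (Set.toFinite _)).trans (by simpa using Set.ncard_insert_le a {b})).trans hk
    · intro a
      have : {l : Fin (4 * g) × Fin (4 * g) | a = l.1 ∨ a = l.2} ⊆
          ((fun b => (a, b)) '' Set.univ) ∪ ((fun b => (b, a)) '' Set.univ) := by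
        rintro ⟨b, c⟩ (h | h)
        · left; exact ⟨c, trivial, by simp only at h; rw [h]⟩
        · right; exact ⟨b, trivial, by simp only at h; rw [h]⟩
      refine (Set.ncard_le_ncard this (Set.toFinite _)).trans ((Set.ncard_union_le _ _).trans ?_)
      have e1 : ((fun b : Fin (4 * g) => (a, b)) '' Set.univ).ncard ≤ 4 * g := by
        refine (Set.ncard_image_le (Set.toFinite _)).trans ?_
        rw [Set.ncard_univ]; simp
      have e2 : ((fun b : Fin (4 * g) => (b, a)) '' Set.univ).ncard ≤ 4 * g := by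
        refine (Set.ncard_image_le (Set.toFinite _)).trans ?_
        rw [Set.ncard_univ]; simp
      omega
    · simp only [Fintype.card_fin, Nat.zero_add, Nat.mul_one]
      have : 2 * (4 * g) * (k - 1) = 8 * g * (k - 1) := by ring
      omega
  | succ n ih =>
    obtain ⟨P, i1, L, i2, inc, r, h1, h2, h3, h4, h5⟩ := ih
    set s := Fintype.card P with hs
    have hs1 : 2 * g ≤ s := by omega
    obtain ⟨N, hN⟩ : ∃ N, N = (s - 1) / g * g + 1 := ⟨_, rfl⟩
    have hNs : N ≤ s := by
      have := Nat.div_mul_le_self (s - 1) g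
      omega
    have hsN : s < N + g := by
      have := Nat.lt_div_mul_add (a := s - 1) (b := g) (by omega)
      omega
    have hNpos : 0 < N := by omega
    have : NeZero N := ⟨hNpos.ne'⟩
    have hcop : Nat.Coprime g N := by
      rw [hN]
      rw [Nat.coprime_mul_right_add_right]
      exact Nat.coprime_one_right _
    have hunit : ∀ x y : Fin k, x ≠ y → IsUnit (((x : ℕ) : ZMod N) - ((y : ℕ) : ZMod N)) := by
      have key : ∀ x y : ℕ, x < k → y < x → IsUnit ((x : ZMod N) - (y : ZMod N)) := by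
        intro x y hx hy
        have hd : Nat.Coprime (x - y) N :=
          Nat.Coprime.coprime_dvd_left (Nat.dvd_factorial (by omega) (by omega)) hcop
        have : (x : ZMod N) - (y : ZMod N) = ((x - y : ℕ) : ZMod N) := by
          rw [Nat.cast_sub hy.le]
        rw [this]
        exact (ZMod.isUnit_iff_coprime _ _).mpr hd
      intro x y hxy
      rcases lt_or_gt_of_ne (fun h => hxy (Fin.ext h) : (x : ℕ) ≠ y) with h | h
      · have := key y x y.2 h
        have := this.neg
        rwa [neg_sub] at this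
      · exact key x y x.2 h
    obtain ⟨ι⟩ : Nonempty (ZMod N ↪ P) := by
      apply Function.Embedding.nonempty_of_card_le
      rw [ZMod.card]; exact hNs
    refine ⟨Fin k × ZMod N, inferInstance, (Fin k × L) ⊕ (ZMod N × ZMod N), inferInstance,
      fun a l => Sum.elim (fun xl : Fin k × L => a.1 = xl.1 ∧ inc (ι a.2) xl.2)
        (fun uv : ZMod N × ZMod N => a.2 = uv.1 * ((a.1 : ℕ) : ZMod N) + uv.2) l, r + N,
        ?_, ?_, ?_, ?_, ?_⟩
    · rw [Fintype.card_prod, Fintype.card_fin, ZMod.card]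
      have e1 : 2 * N ≤ k * N := Nat.mul_le_mul_right _ hk
      have e2 : 2 * g * 2 ^ (n + 1) = 2 * (2 * g * 2 ^ n) := by rw [pow_succ]; ring
      omega
    · rintro ⟨x, u⟩ ⟨x', u'⟩ hne
      by_cases hx : x = x'
      · subst hx
        have hu : ι u ≠ ι u' := fun h => hne (by rw [ι.injective h])
        obtain ⟨l, e1, e2⟩ := h2 _ _ hu
        exact ⟨Sum.inl (x, l), ⟨rfl, e1⟩, ⟨rfl, e2⟩⟩
      · obtain ⟨w, hw⟩ := (hunit x x' hx).exists_right_inv
        refine ⟨Sum.inr (w * (u - u'), u - w * (u - u') * ((x : ℕ) : ZMod N)), ?_, ?_⟩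
        · show u = w * (u - u') * ((x : ℕ) : ZMod N) + (u - w * (u - u') * ((x : ℕ) : ZMod N))
          ring
        · show u' = w * (u - u') * ((x' : ℕ) : ZMod N) + (u - w * (u - u') * ((x : ℕ) : ZMod N))
          have : (((x : ℕ) : ZMod N) - ((x' : ℕ) : ZMod N)) * w * (u - u') = u - u' := by
            rw [hw, one_mul]
          linear_combination this
    · rintro (⟨x, l⟩ | ⟨u, v⟩)
      · have hinj : Set.InjOn (fun a : Fin k × ZMod N => ι a.2)
            {a : Fin k × ZMod N | Sum.elim (fun xl : Fin k × L => a.1 = xl.1 ∧ inc (ι a.2) xl.2)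
            (fun uv : ZMod N × ZMod N => a.2 = uv.1 * ((a.1 : ℕ) : ZMod N) + uv.2)
            (Sum.inl (x, l))} := by
          rintro ⟨a, b⟩ ⟨ha, _⟩ ⟨a', b'⟩ ⟨ha', _⟩ h
          simp only at ha ha' h
          rw [ha, ha', ι.injective h]
        rw [← Set.ncard_image_of_injOn hinj]
        refine le_trans (Set.ncard_le_ncard ?_ (Set.toFinite _)) (h3 l)
        rintro _ ⟨⟨a, b⟩, ⟨_, hb⟩, rfl⟩
        exact hb
      · have hsub : {a : Fin k × ZMod N | Sum.elim (fun xl : Fin k × L => a.1 = xl.1 ∧ inc (ι a.2) xl.2)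
            (fun uv : ZMod N × ZMod N => a.2 = uv.1 * ((a.1 : ℕ) : ZMod N) + uv.2)
            (Sum.inr (u, v))} ⊆
            (fun x : Fin k => (x, u * ((x : ℕ) : ZMod N) + v)) '' Set.univ := by
          rintro ⟨x, p⟩ h
          exact ⟨x, trivial, by
            have : p = u * ((x : ℕ) : ZMod N) + v := h
            rw [this]⟩
        refine (Set.ncard_le_ncard hsub (Set.toFinite _)).trans
          ((Set.ncard_image_le (Set.toFinite _)).trans ?_)
        rw [Set.ncard_univ]; simp
    · rintro ⟨x, w⟩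
      have hsub : {l : (Fin k × L) ⊕ (ZMod N × ZMod N) |
            Sum.elim (fun xl : Fin k × L => (x, w).1 = xl.1 ∧ inc (ι (x, w).2) xl.2)
            (fun uv : ZMod N × ZMod N => (x, w).2 = uv.1 * (((x, w).1 : ℕ) : ZMod N) + uv.2) l} ⊆
            ((fun l => Sum.inl (x, l)) '' {l | inc (ι w) l}) ∪
            ((fun v => Sum.inr (v, w - v * ((x : ℕ) : ZMod N))) '' (Set.univ : Set (ZMod N))) := by
        rintro (⟨x', l⟩ | ⟨u, v⟩) h
        · left
          have e1 : x = x' := h.1
          have e2 : inc (ι w) l := h.2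
          exact ⟨l, e2, by rw [e1]⟩
        · right
          have e1 : w = u * ((x : ℕ) : ZMod N) + v := h
          exact ⟨u, trivial, by rw [e1]; simp⟩
      refine (Set.ncard_le_ncard hsub (Set.toFinite _)).trans ((Set.ncard_union_le _ _).trans ?_)
      refine Nat.add_le_add ((Set.ncard_image_le (Set.toFinite _)).trans (h4 _)) ?_
      refine (Set.ncard_image_le (Set.toFinite _)).trans ?_
      rw [Set.ncard_univ, Nat.card_eq_fintype_card, ZMod.card]
    · rw [Fintype.card_prod, Fintype.card_fin, ZMod.card]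
      obtain ⟨j, rfl⟩ : ∃ j, k = j + 1 := ⟨k - 1, by omega⟩
      simp only [Nat.add_sub_cancel] at h5 ⊢
      have e3 : 8 * g * j * (n + 1 + 1) = 8 * g * j * (n + 1) + 8 * g * j := by ring
      have e4 : g ≤ 8 * g * j := by
        have : 1 ≤ j := by omega
        nlinarith
      have e5 : (r + N) * j = r * j + N * j := by ring
      have e6 : (j + 1) * N = N * j + N := by ring
      rw [e3, e5, e6]
      omega

/-- the number of colours of an optimal proper colouring of the square of `G` -/
noncomputable def chiSq {V : Type} (G : SimpleGraph V) : ℕ := sInf {c : ℕ | (sq G).Colorable c}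

lemma le_chiSq {V : Type} [Fintype V] (G : SimpleGraph V) (s : Finset V)
    (h : (sq G).IsClique s) : s.card ≤ chiSq G := by
  unfold chiSq
  refine le_csInf ⟨_, (sq G).colorable_of_fintype⟩ ?_
  intro c hc
  exact h.card_le_of_colorable hc

theorem core (k : ℕ) (hk : 1 ≤ k) (F : Type) [Field F] [Fintype F] (hkF : k ≤ Fintype.card F)
    (P : Type) [Fintype P] (L : Type) [Fintype L] (inc : P → L → Prop) (r : ℕ)
    (h2 : ∀ a b, a ≠ b → ∃ l, inc a l ∧ inc b l)
    (h3 : ∀ l, {a | inc a l}.ncard ≤ k) (h4 : ∀ a, {l | inc a l}.ncard ≤ r) :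
    ∃ (V : Type) (_ : Fintype V) (G : SimpleGraph V), Degenerate k G ∧
      Fintype.card P ≤ maxDeg G + Fintype.card F ∧
      maxDeg G ≤ max (Fintype.card P) (k + (Fintype.card F + 1 - k) * r) ∧
      Fintype.card F * Fintype.card P ≤ chiSq G + Fintype.card F * Fintype.card F := by
  classical
  set q := Fintype.card F with hq
  set s := Fintype.card P with hs
  have hq1 : 0 < q := Fintype.card_pos
  obtain ⟨X, -, hX⟩ : ∃ X ⊆ (univ : Finset (Option F)), X.card = k := by
    apply exists_subset_card_eq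
    rw [card_univ, Fintype.card_option]; omega
  have hXne : X.Nonempty := by rw [← card_pos, hX]; omega
  obtain ⟨t, ht⟩ : ∃ t, t = s / q := ⟨_, rfl⟩
  have hts : q * t ≤ s := by rw [ht]; exact Nat.mul_div_le s q
  have hst : s ≤ q * t + q := by
    have := Nat.lt_div_mul_add (a := s) (b := q) hq1
    rw [← ht, mul_comm] at this
    omega
  obtain ⟨e⟩ : Nonempty (F × Fin t ↪ P) := by
    apply Function.Embedding.nonempty_of_card_le
    rw [Fintype.card_prod, Fintype.card_fin]; exact hts
  have hdeg1 : q * t ≤ maxDeg (Gr X inc e) := by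
    obtain ⟨x, hx⟩ := hXne
    refine le_trans ?_ (le_maxDeg _ (Sum.inr (x, (0 : F), none)))
    rw [nbr_inr, Set.ncard_image_of_injective _ Sum.inl_injective]
    exact deg_hub X inc e x hx 0
  refine ⟨_, inferInstance, Gr X inc e, ?_, ?_, ?_, ?_⟩
  · have := degenerate_Gr X inc e e.injective k h3 (by rw [hX])
    rwa [hX] at this
  · omega
  · apply maxDeg_le
    rintro (a | ⟨x, y, _ | l⟩)
    · rw [nbr_inl]
      refine (Set.ncard_image_le (Set.toFinite _)).trans ?_
      have := deg_clique X inc e r h4 a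
      rw [hX] at this
      exact this.trans (le_max_right _ _)
    · rw [nbr_inr]
      refine (Set.ncard_image_le (Set.toFinite _)).trans ?_
      exact ((deg_hub_le X inc e (x, y, none)).trans hts).trans (le_max_left _ _)
    · rw [nbr_inr]
      refine (Set.ncard_image_le (Set.toFinite _)).trans ?_
      refine (deg_conn X inc e e.injective k h3 x y l).trans ?_
      exact (Nat.le_add_right _ _).trans (le_max_right _ _)
  · have hcl : (sq (Gr X inc e)).IsClique
        ((univ.map ⟨Sum.inl, Sum.inl_injective⟩ : Finset (((F × F) × Fin t) ⊕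
          (Option F × F × Option L))) : Set (((F × F) × Fin t) ⊕ (Option F × F × Option L))) := by
      intro u hu v hv huv
      simp only [coe_map, Function.Embedding.coeFn_mk, coe_univ, Set.image_univ,
        Set.mem_range] at hu hv
      obtain ⟨a, rfl⟩ := hu
      obtain ⟨b, rfl⟩ := hv
      exact clique_Gr X hXne inc e e.injective h2 a b (fun h => huv (by rw [h]))
    have := le_chiSq _ _ hcl
    rw [card_map, card_univ, Fintype.card_prod, Fintype.card_prod, Fintype.card_fin, ← hq] at this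
    calc q * s ≤ q * (q * t + q) := Nat.mul_le_mul_left _ hst
      _ = q * q * t + q * q := by ring
      _ ≤ _ := by omega

theorem main_log (k : ℕ) (hk : 2 ≤ k) (F : Type) [Field F] [Fintype F] (hkF : k ≤ Fintype.card F) :
    ∃ C : ℕ, ∀ n : ℕ, ∃ (V : Type) (_ : Fintype V) (G : SimpleGraph V), Degenerate k G ∧
      2 ^ n ≤ maxDeg G + C ∧
      Fintype.card F * (k - 1) * maxDeg G ≤
        max (k - 1) (Fintype.card F + 1 - k) * chiSq G + C * (n + 1) := by
  obtain ⟨c, hc⟩ := exists_cover k hk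
  set q := Fintype.card F with hq
  set w := max (k - 1) (q + 1 - k) with hw
  refine ⟨w * (q * q) + q * (w * c + (k - 1) * k) + q, fun n => ?_⟩
  obtain ⟨P, i1, L, i2, inc, r, h1, h2, h3, h4, h5⟩ := hc n
  obtain ⟨V, i3, G, g1, g2, g3, g4⟩ := core k (by omega) F hkF P L inc r h2 h3 h4
  refine ⟨V, i3, G, g1, ?_, ?_⟩
  · omega
  · set s := Fintype.card P with hs
    have hw1 : k - 1 ≤ w := le_max_left _ _
    have hw2 : q + 1 - k ≤ w := le_max_right _ _
    have e1 : (k - 1) * maxDeg G ≤ w * s + w * (c * (n + 1)) + (k - 1) * k := by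
      refine (Nat.mul_le_mul_left (k - 1) g3).trans ?_
      rcases le_total s (k + (q + 1 - k) * r) with h | h
      · rw [max_eq_right h]
        have : (k - 1) * (k + (q + 1 - k) * r) = (k - 1) * k + (q + 1 - k) * (r * (k - 1)) := by
          ring
        rw [this]
        have h6 : (q + 1 - k) * (r * (k - 1)) ≤ w * (s + c * (n + 1)) :=
          Nat.mul_le_mul hw2 h5
        rw [Nat.mul_add] at h6
        omega
      · rw [max_eq_left h]
        have h6 : (k - 1) * s ≤ w * s := Nat.mul_le_mul_right _ hw1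
        omega
    have e2 : q * (k - 1) * maxDeg G ≤ q * (w * s + w * (c * (n + 1)) + (k - 1) * k) := by
      rw [mul_assoc]; exact Nat.mul_le_mul_left _ e1
    have e3 : w * (q * s) ≤ w * (chiSq G + q * q) := Nat.mul_le_mul_left _ g4
    have e4 : q * (w * s + w * (c * (n + 1)) + (k - 1) * k) =
        w * (q * s) + q * (w * c) * (n + 1) + q * ((k - 1) * k) := by ring
    have e5 : (w * (q * q) + q * (w * c + (k - 1) * k) + q) * (n + 1) =
        w * (q * q) * (n + 1) + q * (w * c) * (n + 1) + q * ((k - 1) * k) * (n + 1) +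
          q * (n + 1) := by ring
    have e6 : w * (q * q) ≤ w * (q * q) * (n + 1) := Nat.le_mul_of_pos_right _ (by omega)
    have e7 : q * ((k - 1) * k) ≤ q * ((k - 1) * k) * (n + 1) :=
      Nat.le_mul_of_pos_right _ (by omega)
    have e8 : w * (chiSq G + q * q) = w * chiSq G + w * (q * q) := by ring
    rw [e8] at e3
    rw [e4] at e2
    rw [e5]
    omega

theorem main_const (k : ℕ) (F K : Type) [Field F] [Fintype F] [Field K] [Fintype K]
    (hKk : Fintype.card K ≤ k) (hkF : k ≤ Fintype.card F)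
    (hF : Fintype.card F + 2 ≤ k + Fintype.card K) :
    ∃ C : ℕ, ∀ n : ℕ, ∃ (V : Type) (_ : Fintype V) (G : SimpleGraph V), Degenerate k G ∧
      n ≤ maxDeg G ∧ Fintype.card F * maxDeg G ≤ chiSq G + C := by
  set q := Fintype.card F with hq
  set p := Fintype.card K with hp
  have hp1 : 1 < p := Fintype.one_lt_card
  refine ⟨q * q + q * k, fun n => ?_⟩
  obtain ⟨P, _, _, i1, L, i2, inc, r, h1, h2, h3, h4, h5⟩ := exists_lines K (n + q)
  obtain ⟨V, i3, G, g1, g2, g3, g4⟩ :=
    core k (by omega) F hkF P L inc r h2 (fun l => (h3 l).trans hKk) h4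
  rw [← hq] at g2 g3 g4
  rw [← hp] at h1 h5
  refine ⟨V, i3, G, g1, ?_, ?_⟩
  · have : n + q < p ^ (n + q) := Nat.lt_pow_self hp1
    rw [h1] at g2
    omega
  · have e1 : (q + 1 - k) * r ≤ r * (p - 1) := by
      rw [mul_comm]; exact Nat.mul_le_mul_left _ (by omega)
    have e2 : maxDeg G ≤ k + Fintype.card P := by
      refine g3.trans (max_le (by omega) ?_)
      rw [h1]; omega
    calc q * maxDeg G ≤ q * (k + Fintype.card P) := Nat.mul_le_mul_left _ e2
      _ = q * Fintype.card P + q * k := by ring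
      _ ≤ _ := by omega

/-- the maximum average degree of `G` is less than `2 k`: in every nonempty finite set `S` of
vertices the degrees inside `S` add up to less than `2 k |S|` -/
def MadLt {V : Type} (k : ℕ) (G : SimpleGraph V) : Prop :=
  ∀ S : Finset V, S.Nonempty → ∑ v ∈ S, ((S : Set V) ∩ G.neighborSet v).ncard < 2 * k * S.card

theorem Degenerate.madLt {V : Type} {k : ℕ} (hk : 1 ≤ k) {G : SimpleGraph V}
    (h : Degenerate k G) : MadLt k G := by
  classical
  have key : ∀ m : ℕ, ∀ S : Finset V, S.card = m + 1 →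
      ∑ v ∈ S, ((S : Set V) ∩ G.neighborSet v).ncard ≤ 2 * k * m := by
    have hc : ∀ (S : Finset V) (v : V), ((S : Set V) ∩ G.neighborSet v).ncard =
        ∑ w ∈ S, if G.Adj v w then 1 else 0 := by
      intro S v
      rw [← card_filter, ← Set.ncard_coe_finset]
      congr 1
      ext w
      simp
    intro m
    induction m with
    | zero =>
      intro S hS
      obtain ⟨v, rfl⟩ := card_eq_one.mp hS
      simp [hc]
    | succ m ih =>
      intro S hS
      obtain ⟨v, hv, hvk⟩ := h (S : Set V) S.finite_toSet (by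
        rw [coe_nonempty, ← card_pos]; omega)
      have hv' : v ∈ S := hv
      have hcard : (S.erase v).card = m + 1 := by rw [card_erase_of_mem hv', hS]; rfl
      have h1 := ih (S.erase v) hcard
      have h2 : ∑ u ∈ S, ((S : Set V) ∩ G.neighborSet u).ncard =
          ∑ u ∈ S.erase v, (((S.erase v : Finset V) : Set V) ∩ G.neighborSet u).ncard +
            2 * ((S : Set V) ∩ G.neighborSet v).ncard := by
        rw [← add_sum_erase S _ hv']
        have e1 : ∀ u ∈ S.erase v, ((S : Set V) ∩ G.neighborSet u).ncard =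
            (((S.erase v : Finset V) : Set V) ∩ G.neighborSet u).ncard +
              (if G.Adj v u then 1 else 0) := by
          intro u _
          rw [hc, hc, ← add_sum_erase S _ hv', add_comm]
          congr 1
          simp only [G.adj_comm u v]
        rw [sum_congr rfl e1, sum_add_distrib]
        have e2 : ((S : Set V) ∩ G.neighborSet v).ncard =
            ∑ u ∈ S.erase v, if G.Adj v u then 1 else 0 := by
          rw [hc, ← add_sum_erase S _ hv']
          simp
        omega
      rw [h2]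
      have : 2 * k * (m + 1) = 2 * k * m + 2 * k := by ring
      omega
  intro S hS
  obtain ⟨m, hm⟩ : ∃ m, S.card = m + 1 := ⟨S.card - 1, by have := card_pos.mpr hS; omega⟩
  have := key m S hm
  rw [hm]
  have e : 2 * k * (m + 1) = 2 * k * m + 2 * k := by ring
  omega

/-- `M_k(D) ≤ γ D + O(1)`: the squares of `k`-degenerate finite graphs `G` can be properly coloured
with `γ Δ(G) + C` colours, `C` a constant -/
def DegBound (k : ℕ) (γ : ℝ) : Prop :=
  ∃ C : ℝ, ∀ (V : Type) [Fintype V] (G : SimpleGraph V), Degenerate k G →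
    (chiSq G : ℝ) ≤ γ * maxDeg G + C

/-- `M'_k(D) ≤ γ D + O(1)`: the same for the finite graphs with maximum average degree `< 2 k` -/
def MadBound (k : ℕ) (γ : ℝ) : Prop :=
  ∃ C : ℝ, ∀ (V : Type) [Fintype V] (G : SimpleGraph V), MadLt k G →
    (chiSq G : ℝ) ≤ γ * maxDeg G + C

theorem MadBound.deg {k : ℕ} (hk : 1 ≤ k) {γ : ℝ} (h : MadBound k γ) : DegBound k γ := by
  obtain ⟨C, hC⟩ := h
  exact ⟨C, fun V _ G hG => hC V G (hG.madLt hk)⟩

theorem exists_field {q : ℕ} (hq : IsPrimePow q) :
    ∃ (F : Type) (_ : Field F) (_ : Fintype F), Fintype.card F = q := by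
  obtain ⟨i⟩ : Nonempty (Field (Fin q)) := by
    rw [Fintype.nonempty_field_iff, Fintype.card_fin]; exact hq
  exact ⟨Fin q, i, inferInstance, Fintype.card_fin q⟩

theorem slope (k : ℕ) (hk : 2 ≤ k) (q : ℕ) (hq : IsPrimePow q) (hkq : k ≤ q) (γ : ℝ)
    (h : DegBound k γ) : (q : ℝ) * (k - 1) ≤ γ * max ((k : ℝ) - 1) (q + 1 - k) := by
  obtain ⟨F, i1, i2, hF⟩ := exists_field hq
  obtain ⟨C, hC⟩ := main_log k hk F (by rw [hF]; exact hkq)
  obtain ⟨C', hC'⟩ := h
  rw [hF] at hC
  set w : ℝ := max ((k : ℝ) - 1) (q + 1 - k) with hw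
  have hwpos : 0 < w := by
    have : (1 : ℝ) ≤ (k : ℝ) - 1 := by
      have : (2 : ℝ) ≤ k := by exact_mod_cast hk
      linarith
    exact lt_of_lt_of_le (by linarith) (le_max_left _ _)
  have hwcast : ((max (k - 1) (q + 1 - k) : ℕ) : ℝ) = w := by
    rw [hw, Nat.cast_max, Nat.cast_sub (by omega), Nat.cast_sub (by omega)]
    push_cast; rfl
  by_contra hcon
  push Not at hcon
  set δ : ℝ := (q : ℝ) * (k - 1) - γ * w with hδ
  have hδpos : 0 < δ := by rw [hδ]; linarith
  -- 2^n grows faster than n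
  have hlim : Filter.Tendsto (fun n : ℕ => ((n : ℝ) + 1) / 2 ^ n) Filter.atTop (nhds 0) := by
    have h1 := tendsto_pow_const_div_const_pow_of_one_lt 1 (show (1 : ℝ) < 2 by norm_num)
    have h2 : Filter.Tendsto (fun n : ℕ => ((1 : ℝ) / 2) ^ n) Filter.atTop (nhds 0) :=
      tendsto_pow_atTop_nhds_zero_of_lt_one (by norm_num) (by norm_num)
    have h3 := h1.add h2
    rw [add_zero] at h3
    refine h3.congr fun n => ?_
    rw [pow_one, one_div, inv_pow, add_div, one_div]
  set B : ℝ := δ * C + w * |C'| + C + 1 with hB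
  have hBpos : 0 < B := by
    have : (0 : ℝ) ≤ C := Nat.cast_nonneg _
    have h1 : 0 ≤ δ * C := mul_nonneg hδpos.le this
    have h2 : 0 ≤ w * |C'| := mul_nonneg hwpos.le (abs_nonneg _)
    rw [hB]; linarith
  have hev := hlim.eventually (gt_mem_nhds (show (0 : ℝ) < δ / B by positivity))
  obtain ⟨n, hn⟩ := hev.exists
  obtain ⟨V, i3, G, g1, g2, g3⟩ := hC n
  have g4 := hC' V G g1
  have g2' : (2 : ℝ) ^ n ≤ maxDeg G + C := by exact_mod_cast g2
  have g3' : (q : ℝ) * (k - 1) * maxDeg G ≤ w * chiSq G + C * (n + 1) := by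
    have := (Nat.cast_le (α := ℝ)).mpr g3
    rw [← hwcast]
    push_cast [Nat.cast_sub (show 1 ≤ k by omega)] at this ⊢
    exact this
  have g5 : w * (chiSq G : ℝ) ≤ w * (γ * maxDeg G + C') := mul_le_mul_of_nonneg_left g4 hwpos.le
  have g6 : δ * maxDeg G ≤ w * C' + C * (n + 1) := by
    rw [hδ]; linarith
  have g7 : w * C' ≤ w * |C'| := mul_le_mul_of_nonneg_left (le_abs_self _) hwpos.le
  have g8 : δ * 2 ^ n ≤ δ * C + w * |C'| + C * (n + 1) := by
    have := mul_le_mul_of_nonneg_left g2' hδpos.le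
    rw [mul_add] at this
    linarith
  have hn1 : (0 : ℝ) ≤ n := Nat.cast_nonneg _
  have hC0 : (0 : ℝ) ≤ C := Nat.cast_nonneg _
  have g9 : δ * 2 ^ n ≤ B * (n + 1) := by
    have h1 : 0 ≤ δ * C := mul_nonneg hδpos.le hC0
    have h2 : 0 ≤ w * |C'| := mul_nonneg hwpos.le (abs_nonneg _)
    rw [hB]
    nlinarith [mul_nonneg h1 hn1, mul_nonneg h2 hn1]
  have h2n : (0 : ℝ) < 2 ^ n := by positivity
  rw [div_lt_div_iff₀ h2n hBpos] at hn
  linarith

theorem slope_low {k q : ℕ} (hk : 2 ≤ k) (hq : IsPrimePow q) (hkq : k ≤ q) (hq2 : q ≤ 2 * k - 2)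
    {γ : ℝ} (h : DegBound k γ) : (q : ℝ) ≤ γ := by
  have h1 := slope k hk q hq hkq γ h
  have hk' : (2 : ℝ) ≤ k := by exact_mod_cast hk
  have hq' : (q : ℝ) ≤ 2 * k - 2 := by
    have : q + 2 ≤ 2 * k := by omega
    have : (q : ℝ) + 2 ≤ 2 * k := by exact_mod_cast this
    linarith
  rw [max_eq_left (by linarith)] at h1
  exact le_of_mul_le_mul_right h1 (by linarith)

theorem slope_high {k q : ℕ} (hk : 2 ≤ k) (hq : IsPrimePow q) (hq2 : 2 * k - 1 ≤ q)
    {γ : ℝ} (h : DegBound k γ) : (q : ℝ) * (k - 1) / (q + 1 - k) ≤ γ := by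
  have h1 := slope k hk q hq (by omega) γ h
  have hk' : (2 : ℝ) ≤ k := by exact_mod_cast hk
  have hq' : 2 * (k : ℝ) - 1 ≤ q := by
    have : 2 * k ≤ q + 1 := by omega
    have : 2 * (k : ℝ) ≤ q + 1 := by exact_mod_cast this
    linarith
  rw [max_eq_right (by linarith)] at h1
  rw [div_le_iff₀ (by linarith)]
  exact h1

theorem slope_all {k : ℕ} (hk : 2 ≤ k) {γ : ℝ} (h : DegBound k γ) :
    3 * ((k : ℝ) - 1) / 2 ≤ γ := by
  have hk' : (2 : ℝ) ≤ k := by exact_mod_cast hk
  -- a power of two between 3 (k - 1) / 2 and 3 (k - 1)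
  obtain ⟨a, ha1, ha2⟩ : ∃ a : ℕ, 3 * (k - 1) ≤ 2 * 2 ^ a ∧ 2 ^ a < 3 * (k - 1) := by
    refine ⟨Nat.log 2 (3 * (k - 1) - 1), ?_, ?_⟩
    · have := Nat.lt_pow_succ_log_self (b := 2) (by norm_num) (3 * (k - 1) - 1)
      rw [pow_succ] at this
      omega
    · have := Nat.pow_log_le_self 2 (x := 3 * (k - 1) - 1) (by omega)
      omega
  have ha : a ≠ 0 := by
    rintro rfl
    simp only [pow_zero] at ha1
    omega
  have hq : IsPrimePow (2 ^ a) := (Nat.prime_two.isPrimePow).pow ha
  have hb1 : 3 * ((k : ℝ) - 1) ≤ 2 * ((2 ^ a : ℕ) : ℝ) := by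
    have := (Nat.cast_le (α := ℝ)).mpr ha1
    push_cast [Nat.cast_sub (show 1 ≤ k by omega)] at this ⊢
    exact this
  have hb2 : ((2 ^ a : ℕ) : ℝ) < 3 * ((k : ℝ) - 1) := by
    have := (Nat.cast_lt (α := ℝ)).mpr ha2
    push_cast [Nat.cast_sub (show 1 ≤ k by omega)] at this ⊢
    exact this
  rcases Nat.lt_or_ge (2 * k - 2) (2 ^ a) with h1 | h1
  · have h2 := slope_high hk hq (by omega) h
    refine le_trans ?_ h2
    have h3 : 2 * (k : ℝ) - 1 ≤ ((2 ^ a : ℕ) : ℝ) := by
      have : 2 * k ≤ 2 ^ a + 1 := by omega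
      have : (2 : ℝ) * k ≤ ((2 ^ a : ℕ) : ℝ) + 1 := by exact_mod_cast this
      linarith
    rw [le_div_iff₀ (by linarith)]
    nlinarith
  · have h2 := slope_low hk hq (by omega) h1 h
    linarith

/-- Lower bounds for the slopes of `M_k(D)` and `M'_k(D)`. -/
theorem result (k : ℕ) (hk : 2 ≤ k) :
    (∀ q : ℕ, IsPrimePow q → k ≤ q →
      ∃ C : ℕ, ∀ n : ℕ, ∃ (V : Type) (_ : Fintype V) (G : SimpleGraph V),
        Degenerate k G ∧ MadLt k G ∧ 2 ^ n ≤ maxDeg G + C ∧
          q * (k - 1) * maxDeg G ≤ max (k - 1) (q + 1 - k) * chiSq G + C * (n + 1)) ∧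
    (∀ γ : ℝ, DegBound k γ ∨ MadBound k γ →
      (∀ q : ℕ, IsPrimePow q → k ≤ q →
        (q : ℝ) * (k - 1) ≤ γ * max ((k : ℝ) - 1) (q + 1 - k)) ∧
      3 * ((k : ℝ) - 1) / 2 ≤ γ ∧
      ((∃ m : ℕ, k = 2 ^ m + 1) → 2 * (k : ℝ) - 2 ≤ γ)) := by
  refine ⟨?_, ?_⟩
  · intro q hq hkq
    obtain ⟨F, i1, i2, hF⟩ := exists_field hq
    obtain ⟨C, hC⟩ := main_log k hk F (by rw [hF]; exact hkq)
    rw [hF] at hC
    refine ⟨C, fun n => ?_⟩
    obtain ⟨V, i3, G, g1, g2, g3⟩ := hC n
    exact ⟨V, i3, G, g1, g1.madLt (by omega), g2, g3⟩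
  · intro γ hγ
    have h : DegBound k γ := by
      rcases hγ with h | h
      · exact h
      · exact h.deg (by omega)
    refine ⟨fun q hq h1 => slope k hk q hq h1 γ h, slope_all hk h, ?_⟩
    rintro ⟨m, rfl⟩
    have hm : m + 1 ≠ 0 := by omega
    have h1 := slope_low (q := 2 ^ (m + 1)) hk ((Nat.prime_two.isPrimePow).pow hm)
      (by rw [pow_succ]; have := Nat.one_le_two_pow (n := m); omega)
      (by rw [pow_succ]; omega) h
    push_cast at h1 ⊢
    rw [pow_succ] at h1
    linarith

end Pool.Agent.Results.MP_f97382_co.SlopeLower
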